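import Pool.Agent.H23.LC.Targets
import Pool.Agent.H23.LB.Targets
import Pool.Agent.H28.RC.WP

/-!
# Row WK: the pair of functions with a functional equation
-/

set_option autoImplicit false

open NumberField NumberField.InfinitePlace NumberField.Units
  NumberField.Units.dirichletUnitTheorem MeasureTheory Set Filter Complex Asymptotics
open scoped nonZeroDivisors ENNReal

namespace Pool.Agent.H28.GLB

open Pool.Agent.H25.HK Pool.Agent.H23.LB Pool.Agent.H23.LC
open Pool.Agent.H28.RC (Rep ft idl)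
open Pool.Agent.H63.HK (mem_unitLattice_exists bx bx_compact fd_sub)

open scoped Classical in
section

variable {K : Type} [Field K] [NumberField K]

/-- every point is congruent to a point of the fundamental domain -/
theorem exists_add_mem (z : logSpace K) : ∃ l ∈ unitLattice K, z + l ∈ Fd K := by
  set b := (basisUnitLattice K).ofZLatticeBasis ℝ (unitLattice K) with hb
  refine ⟨-(ZSpan.floor b z : logSpace K), ?_, ?_⟩
  · have h1 : (ZSpan.floor b z : logSpace K) ∈ Submodule.span ℤ (Set.range b) :=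
      (ZSpan.floor b z).2
    have h2 : Submodule.span ℤ (Set.range b) = unitLattice K := by
      rw [hb]
      exact (basisUnitLattice K).ofZLatticeBasis_span ℝ
    have h3 : (ZSpan.floor b z : logSpace K) ∈ unitLattice K := by
      generalize (ZSpan.floor b z : logSpace K) = w at h1 ⊢
      rw [h2] at h1
      exact h1
    exact neg_mem h3
  · have h1 := ZSpan.fract_mem_fundamentalDomain b z
    rw [ZSpan.fract_apply, sub_eq_add_neg] at h1
    exact h1

/-- decay of the real theta function at all points -/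
theorem th_decay (hDC : T_DC) (hUI : T_UI) (M : FI K) (hM : M ≠ 0) : ∃ C c : ℝ, 0 < c ∧
    ∀ t : ℝ, 1 ≤ t → ∀ z : logSpace K, |th K M (yc K (Real.log t) z) - 1| ≤
      C * Real.exp (-c * t ^ ((2 : ℝ) / Module.finrank ℚ K)) := by
  obtain ⟨C, c, hc, hb⟩ := hDC K M hM
  refine ⟨C, c, hc, fun t ht z => ?_⟩
  obtain ⟨l, hl, hz⟩ := exists_add_mem z
  obtain ⟨u, rfl⟩ := mem_unitLattice_exists K l hl
  have h1 := hb t ht _ hz
  rwa [(hUI K M (Real.log t) z u).2] at h1

theorem qK_zero (y : InfinitePlace K → ℝ) : qK K y (0 : K) = 0 := by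
  unfold qK
  simp

/-- the theta series without the term at `0` is bounded by a real theta function -/
theorem tk_bound (hTH : T_TH) (hSK : U_SK) (k : InfinitePlace K → ℤ) : ∃ C : ℝ, 0 ≤ C ∧
    ∀ (M : FI K), M ≠ 0 → ∀ (c : K → ℂ) (B : ℝ), 0 ≤ B → (∀ x ∈ M, ‖c x‖ ≤ B) →
    ∀ y : InfinitePlace K → ℝ, ‖tk K k M c y - (if k = 0 then c 0 else 0)‖ ≤
      C * B * (th K M (fun v => y v - Real.log 2) - 1) := by
  obtain ⟨⟨C, hC⟩, hS2, hS3, -⟩ := hSK K k
  refine ⟨|C|, abs_nonneg C, fun M hM c B hB hc y => ?_⟩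
  set g : {x : K // x ∈ M} → ℂ := fun x =>
    c x * (wk K k y x * ((Real.exp (-Real.pi * qK K y x) : ℝ) : ℂ)) with hg
  set h : {x : K // x ∈ M} → ℝ := fun x =>
    Real.exp (-Real.pi * qK K (fun v => y v - Real.log 2) x) with hh
  have hsh : Summable h := (hTH K M hM _).1
  have hgb : ∀ x : {x : K // x ∈ M}, ‖g x‖ ≤ |C| * B * h x := by
    intro x
    rw [hg]
    simp only
    rw [norm_mul, norm_mul, Complex.norm_real, Real.norm_eq_abs, Real.abs_exp]
    have h1 := hC y x.1
    have h2 : ‖wk K k y x.1‖ * Real.exp (-Real.pi * qK K y x.1) ≤ |C| * h x := by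
      refine h1.trans ?_
      exact mul_le_mul_of_nonneg_right (le_abs_self C) (Real.exp_pos _).le
    calc ‖c x.1‖ * (‖wk K k y x.1‖ * Real.exp (-Real.pi * qK K y x.1)) ≤ B * (|C| * h x) :=
          mul_le_mul (hc x.1 x.2) h2 (by positivity) hB
      _ = |C| * B * h x := by ring
  have hsg : Summable g := Summable.of_norm_bounded (hsh.mul_left (|C| * B)) hgb
  set o : {x : K // x ∈ M} := ⟨0, M.1.zero_mem⟩ with ho
  have hg0 : g o = if k = 0 then c 0 else 0 := by
    rw [hg]
    simp only [ho]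
    rw [qK_zero, mul_zero, Real.exp_zero, Complex.ofReal_one, mul_one]
    split_ifs with hk
    · rw [(hS3 y).2 hk 0, mul_one]
    · rw [(hS3 y).1 hk, mul_zero]
  have hh0 : h o = 1 := by
    rw [hh]
    simp only [ho]
    rw [qK_zero, mul_zero, Real.exp_zero]
  have e1 : tk K k M c y - (if k = 0 then c 0 else 0) =
      ∑' x : {x : K // x ∈ M}, (g x - if x = o then g o else 0) := by
    rw [hsg.tsum_sub (hasSum_ite_eq o (g o)).summable, tsum_ite_eq, hg0]
    rfl
  have e2 : th K M (fun v => y v - Real.log 2) - 1 =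
      ∑' x : {x : K // x ∈ M}, (h x - if x = o then h o else 0) := by
    rw [hsh.tsum_sub (hasSum_ite_eq o (h o)).summable, tsum_ite_eq, hh0]
    rfl
  rw [e1, e2]
  have hs2 : Summable (fun x : {x : K // x ∈ M} => h x - if x = o then h o else 0) :=
    hsh.sub (hasSum_ite_eq o (h o)).summable
  refine tsum_of_norm_bounded (hs2.mul_left (|C| * B)).hasSum ?_ |>.trans ?_
  · intro x
    by_cases hx : x = o
    · subst hx
      simp
    · simp only [hx, if_false, sub_zero]
      exact hgb x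
  · rw [tsum_mul_left]

/-- decay of the theta series -/
theorem tk_decay (hTH : T_TH) (hSK : U_SK) (hDC : T_DC) (hUI : T_UI) (hYC : T_YC)
    (k : InfinitePlace K → ℤ) (M : FI K) (hM : M ≠ 0) (c : K → ℂ) (B : ℝ)
    (hc : ∀ x ∈ M, ‖c x‖ ≤ B) : ∃ C a T : ℝ, 0 < a ∧ 1 ≤ T ∧
    ∀ t : ℝ, T ≤ t → ∀ z : logSpace K,
      ‖tk K k M c (yc K (Real.log t) z) - (if k = 0 then c 0 else 0)‖ ≤
      C * Real.exp (-a * t ^ ((2 : ℝ) / Module.finrank ℚ K)) := by
  have hn : 0 < Module.finrank ℚ K := Module.finrank_pos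
  have hn' : (0 : ℝ) < Module.finrank ℚ K := by exact_mod_cast hn
  have hB : 0 ≤ B := (norm_nonneg _).trans (hc 0 M.1.zero_mem)
  obtain ⟨C, hC, hb⟩ := tk_bound hTH hSK k
  obtain ⟨C', c', hc', hd⟩ := th_decay hDC hUI M hM
  set T : ℝ := Real.exp (Module.finrank ℚ K * Real.log 2 / 2) with hT
  have hT1 : 1 ≤ T := by
    rw [hT]
    have := Real.log_nonneg (x := 2) (by norm_num)
    exact Real.one_le_exp (by positivity)
  refine ⟨C * B * C', c' / 2, T, by positivity, hT1, fun t ht z => ?_⟩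
  have ht0 : 0 < t := lt_of_lt_of_le one_pos (hT1.trans ht)
  have hT0 : 0 < T := Real.exp_pos _
  have h1 := hb M hM c B hB hc (yc K (Real.log t) z)
  have e1 : (fun v => yc K (Real.log t) z v - Real.log 2) = yc K (Real.log (t / T)) z := by
    funext v
    rw [(hYC K).2.2.2.1 (Real.log t) z v, (hYC K).2.2.2.1 (Real.log (t / T)) z v,
      Real.log_div ht0.ne' hT0.ne', hT, Real.log_exp]
    field_simp
    ring
  rw [e1] at h1
  have h2 := hd (t / T) ((one_le_div hT0).2 ht) z
  have e2 : (t / T) ^ ((2 : ℝ) / Module.finrank ℚ K) =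
      t ^ ((2 : ℝ) / Module.finrank ℚ K) / 2 := by
    rw [Real.div_rpow ht0.le hT0.le]
    congr 1
    rw [hT, ← Real.exp_mul,
      show (Module.finrank ℚ K : ℝ) * Real.log 2 / 2 * (2 / (Module.finrank ℚ K : ℝ)) =
        Real.log 2 by field_simp, Real.exp_log two_pos]
  rw [e2] at h2
  refine h1.trans ?_
  calc C * B * (th K M (yc K (Real.log (t / T)) z) - 1)
      ≤ C * B * (C' * Real.exp (-c' * (t ^ ((2 : ℝ) / Module.finrank ℚ K) / 2))) :=
        mul_le_mul_of_nonneg_left ((le_abs_self _).trans h2) (by positivity)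
    _ = C * B * C' * Real.exp (-(c' / 2) * t ^ ((2 : ℝ) / Module.finrank ℚ K)) := by
        rw [show -c' * (t ^ ((2 : ℝ) / Module.finrank ℚ K) / 2) =
          -(c' / 2) * t ^ ((2 : ℝ) / Module.finrank ℚ K) by ring]
        ring

/-- decay of an averaged function -/
theorem av_top (hFD : T_FD) (F : ℝ → logSpace K → ℂ) (e : logSpace K → ℂ) (c0 : ℂ)
    (hF : ∀ t, Continuous (F t)) (he : Continuous e) (he1 : ∀ z, ‖e z‖ = 1)
    (C a T : ℝ) (ha : 0 < a) (hb : ∀ t : ℝ, T ≤ t → ∀ z, ‖F t z - c0‖ ≤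
      C * Real.exp (-a * t ^ ((2 : ℝ) / Module.finrank ℚ K))) (r : ℝ) :
    (fun t : ℝ => (∫ z in Fd K, e z * F t z) - c0 * ∫ z in Fd K, e z) =O[atTop]
      (fun t : ℝ => t ^ r) := by
  have hlt := (hFD K).2.2.2.1
  set n : ℝ := (2 : ℝ) / Module.finrank ℚ K with hn
  have hnpos : 0 < n := by
    have : 0 < Module.finrank ℚ K := Module.finrank_pos
    positivity
  have h1 : ∀ t : ℝ, T ≤ t → ‖(∫ z in Fd K, e z * F t z) - c0 * ∫ z in Fd K, e z‖ ≤
      (volume.real (Fd K) * C) * Real.exp (-a * t ^ n) := by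
    intro t ht
    have e1 : (∫ z in Fd K, e z * F t z) - c0 * ∫ z in Fd K, e z =
        ∫ z in Fd K, e z * (F t z - c0) := by
      have i1 : IntegrableOn (fun z => e z * F t z) (Fd K) :=
        Pool.Agent.H28.RC.cont_int hFD _ (he.mul (hF t))
      have i2 : IntegrableOn (fun z => c0 * e z) (Fd K) :=
        Pool.Agent.H28.RC.cont_int hFD _ (continuous_const.mul he)
      rw [← integral_const_mul, ← integral_sub i1 i2]
      refine integral_congr_ae (Eventually.of_forall fun z => ?_)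
      simp only
      ring
    rw [e1]
    have e2 := norm_setIntegral_le_of_norm_le_const (μ := volume) (s := Fd K) hlt
      (C := C * Real.exp (-a * t ^ n)) (f := fun z => e z * (F t z - c0))
      (fun z _ => by rw [norm_mul, he1 z, one_mul]; exact hb t ht z)
    calc _ ≤ _ := e2
      _ = _ := by ring
  have h2 : (fun t : ℝ => Real.exp (-a * t ^ n)) =O[atTop] (fun t : ℝ => t ^ r) := by
    have h3 := (isLittleO_exp_neg_mul_rpow_atTop ha (r / n)).isBigO.comp_tendsto
      (tendsto_rpow_atTop hnpos)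
    refine h3.congr' (Eventually.of_forall fun t => rfl) ?_
    filter_upwards [eventually_ge_atTop 0] with t ht
    simp only [Function.comp]
    rw [← Real.rpow_mul ht, mul_div_cancel₀ _ hnpos.ne']
  refine IsBigO.trans ?_ h2
  refine IsBigO.of_bound (volume.real (Fd K) * C) ?_
  filter_upwards [eventually_ge_atTop T] with t ht
  rw [Real.norm_eq_abs, Real.abs_exp]
  exact h1 t ht

/-- local integrability of an averaged function -/
theorem av_loc (hFD : T_FD) (hYC : T_YC) (Θ : (InfinitePlace K → ℝ) → ℂ) (hΘ : Continuous Θ)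
    (e : logSpace K → ℂ) (he : Continuous e) (σ : logSpace K → logSpace K)
    (hσ : Continuous σ) :
    LocallyIntegrableOn (fun t : ℝ => ∫ z in Fd K, e z * Θ (yc K (Real.log t) (σ z)))
      (Ioi 0) := by
  apply ContinuousOn.locallyIntegrableOn _ measurableSet_Ioi
  have h1 : Continuous (fun τ : ℝ => ∫ z in Fd K, e z * Θ (yc K τ (σ z))) := by
    refine Pool.Agent.H28.RC.cont_par hFD (fun τ z => e z * Θ (yc K τ (σ z))) ?_
    have h2 : Continuous (fun p : ℝ × logSpace K => yc K p.1 (σ p.2)) :=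
      (hYC K).2.2.2.2.1.comp (continuous_fst.prodMk (hσ.comp continuous_snd))
    exact (he.comp continuous_snd).mul (hΘ.comp h2)
  refine h1.comp_continuousOn (Real.continuousOn_log.mono ?_)
  intro x hx
  exact ne_of_gt hx

theorem norm_ft_le (X : Finset K) (c : K → ℂ) (hc : ∀ r ∈ X, ‖c r‖ ≤ 1) (y : K) :
    ‖ft K X c y‖ ≤ X.card := by
  unfold Pool.Agent.H28.RC.ft
  refine (norm_sum_le _ _).trans ?_
  calc ∑ r ∈ X, ‖c r * cexp (2 * Real.pi * I * ((Algebra.trace ℚ K (r * y) : ℚ) : ℂ))‖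
      ≤ ∑ _r ∈ X, (1 : ℝ) := by
        refine Finset.sum_le_sum fun r hr => ?_
        rw [norm_mul, Complex.norm_exp]
        have : (2 * (Real.pi : ℂ) * I * ((Algebra.trace ℚ K (r * y) : ℚ) : ℂ)).re = 0 := by
          have h : (2 * (Real.pi : ℂ) * I * ((Algebra.trace ℚ K (r * y) : ℚ) : ℂ)) =
              ((2 * Real.pi * ((Algebra.trace ℚ K (r * y) : ℚ) : ℝ) : ℝ) : ℂ) * I := by
            push_cast
            ring
          rw [h]
          simp
        rw [this, Real.exp_zero, mul_one]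
        exact hc r hr
    _ = X.card := by simp

theorem pf_WK (hTK : U_TK) (hSK : U_SK) (hCG : U_CG) (hPU : Pool.Agent.H23.LB.T_PU) (hTH : T_TH)
    (hDC : T_DC) (hUI : T_UI) (hYC : T_YC) (hFD : T_FD) (hDU : T_DU) : U_WK := by
  intro K _ _ f hf D χ c
  have hM : D.M c ≠ 0 := D.reps.1 c
  have hfM : (f : FI K) * D.M c ≠ 0 := by
    refine mul_ne_zero ?_ hM
    rw [Ne, FractionalIdeal.coeIdeal_eq_zero]
    exact hf
  obtain ⟨hd, -, -, hN, -⟩ := hDU K _ hfM
  have hcv : cv K ((f : FI K) * D.M c) ≠ 0 := by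
    unfold cv
    refine mul_ne_zero ?_ hN.ne'
    rw [Real.sqrt_ne_zero']
    exact abs_pos.mpr (Int.cast_ne_zero.mpr (discr_ne_zero K))
  have hε : (((cv K ((f : FI K) * D.M c))⁻¹ : ℝ) : ℂ) * (-I) ^ dk K χ.k ≠ 0 := by
    refine mul_ne_zero ?_ (pow_ne_zero _ (neg_ne_zero.2 I_ne_zero))
    rw [Ne, Complex.ofReal_eq_zero, inv_eq_zero]
    exact hcv
  obtain ⟨-, hcg, -, hper, -⟩ := hCG K f χ (D.M c) hf hM
  have hrep := D.rep c
  have hch : ∀ x, ‖ch D χ c x‖ ≤ (D.X c).card := fun x =>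
    norm_ft_le (D.X c) (cg χ (D.M c)) (fun r hr => hcg r (hrep.1 r hr)) x
  obtain ⟨hec, hec1⟩ := (hPU K).2.2.2.2.1 χ.ν
  obtain ⟨hY1, hY2, -⟩ := hYC K
  -- the functional equation of the theta series
  have hfe : ∀ (x : ℝ), 0 < x → fk χ (D.M c) (1 / x) =
      ((((cv K ((f : FI K) * D.M c))⁻¹ : ℝ) : ℂ) * (-I) ^ dk K χ.k) * ((x : ℂ) * fk' D χ c x) := by
    intro x hx
    unfold fk fk'
    rw [← integral_const_mul, ← integral_const_mul]
    refine integral_congr_ae (Eventually.of_forall fun z => ?_)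
    simp only
    rw [hTK K χ.k f (D.M c) (D.X c) (cg χ (D.M c)) χ.real_k hf hM hrep hper, hY1]
    have e1 : Real.log (1 / x) = -Real.log x := by rw [one_div, Real.log_inv]
    rw [e1]
    have e2 : -yc K (-Real.log x) z = yc K (Real.log x) (-z) := by
      have := hY2 (Real.log x) (-z)
      rw [neg_neg] at this
      rw [this, neg_neg]
    rw [e2]
    have e3 : Real.exp (-(2 * -Real.log x) / 2) = x := by
      rw [show -(2 * -Real.log x) / 2 = Real.log x by ring, Real.exp_log hx]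
    rw [e3]
    have e4 : (fun r => ft K (D.X c) (cg χ (D.M c)) r) = ch D χ c := rfl
    rw [show ft K (D.X c) (cg χ (D.M c)) = ch D χ c from rfl]
    generalize tk K (-χ.k) (du K ((f : FI K) * D.M c)) (ch D χ c)
      (yc K (Real.log x) (-z)) = q
    push_cast
    ring
  -- continuity of the theta series
  have hc1 : Continuous (tk K χ.k (D.M c) (cg χ (D.M c))) :=
    (hSK K χ.k).2.2.2 (D.M c) (cg χ (D.M c)) hM ⟨1, hcg⟩
  have hc2 : Continuous (tk K (-χ.k) (du K ((f : FI K) * D.M c)) (ch D χ c)) :=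
    (hSK K (-χ.k)).2.2.2 _ (ch D χ c) hd ⟨_, fun x _ => hch x⟩
  have hycont : ∀ τ : ℝ, Continuous (fun z : logSpace K => yc K τ z) :=
    fun τ => Pool.Agent.H28.RC.yc_cont hYC τ
  have hneg : Continuous (fun z : logSpace K => -z) := continuous_neg
  have hf1 : LocallyIntegrableOn (fun t => fk χ (D.M c) t) (Ioi 0) :=
    av_loc hFD hYC _ hc1 (ec K χ.ν) hec (fun z => z) continuous_id
  have hg1 : LocallyIntegrableOn (fun t => fk' D χ c t) (Ioi 0) :=
    av_loc hFD hYC _ hc2 (ec K χ.ν) hec (fun z => -z) hneg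
  -- decay
  obtain ⟨C₁, a₁, T₁, ha₁, -, hb₁⟩ := tk_decay hTH hSK hDC hUI hYC χ.k (D.M c) hM
    (cg χ (D.M c)) 1 hcg
  obtain ⟨C₂, a₂, T₂, ha₂, -, hb₂⟩ := tk_decay hTH hSK hDC hUI hYC (-χ.k)
    (du K ((f : FI K) * D.M c)) hd (ch D χ c) _ (fun x _ => hch x)
  have hf2 : ∀ r : ℝ, (fun t => fk χ (D.M c) t - k0 χ (D.M c)) =O[atTop]
      (fun t : ℝ => t ^ r) := by
    intro r
    have h1 := av_top hFD (fun t z => tk K χ.k (D.M c) (cg χ (D.M c)) (yc K (Real.log t) z))
      (ec K χ.ν) (if χ.k = 0 then cg χ (D.M c) 0 else 0)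
      (fun t => hc1.comp (hycont _)) hec hec1 C₁ a₁ T₁ ha₁ hb₁ r
    have e1 : k0 χ (D.M c) = (if χ.k = 0 then cg χ (D.M c) 0 else 0) *
        ∫ z in Fd K, ec K χ.ν z := by
      unfold k0
      split_ifs
      · rfl
      · rw [zero_mul]
    rw [e1]
    exact h1
  have hg2 : ∀ r : ℝ, (fun t => fk' D χ c t - k0' D χ c) =O[atTop]
      (fun t : ℝ => t ^ r) := by
    intro r
    have h1 := av_top hFD (fun t z => tk K (-χ.k) (du K ((f : FI K) * D.M c)) (ch D χ c)
        (yc K (Real.log t) (-z)))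
      (ec K χ.ν) (if -χ.k = 0 then ch D χ c 0 else 0)
      (fun t => (hc2.comp (hycont _)).comp hneg) hec hec1 C₂ a₂ T₂ ha₂
      (fun t ht z => hb₂ t ht (-z)) r
    have e1 : k0' D χ c = (if -χ.k = 0 then ch D χ c 0 else 0) *
        ∫ z in Fd K, ec K χ.ν z := by
      unfold k0'
      by_cases hk : χ.k = 0
      · rw [if_pos hk, if_pos (by rw [hk, neg_zero])]
      · rw [if_neg hk, if_neg (by rwa [neg_eq_zero]), zero_mul]
    rw [e1]
    exact h1
  refine ⟨{ f := fun t => fk χ (D.M c) t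
            g := fun t => fk' D χ c t
            k := 1
            ε := (((cv K ((f : FI K) * D.M c))⁻¹ : ℝ) : ℂ) * (-I) ^ dk K χ.k
            f₀ := k0 χ (D.M c)
            g₀ := k0' D χ c
            hf_int := hf1
            hg_int := hg1
            hk := one_pos
            hε := hε
            h_feq := fun x hx => by
              rw [hfe x hx]
              simp only [Real.rpow_one, smul_eq_mul]
              ring
            hf_top := hf2
            hg_top := hg2 },
    fun t => rfl, fun t => rfl, rfl, rfl, rfl, rfl⟩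

end

end Pool.Agent.H28.GLB
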